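import Mathlib
import Pool.Agent.H.BS.G

set_option autoImplicit false

namespace Pool.Agent.Results.MP_528470_co.Yes

abbrev E (n : ℕ) := EuclideanSpace ℝ (Fin n)

def Transitive {n : ℕ} (Y : Set (E n)) : Prop :=
  ∀ x ∈ Y, ∀ y ∈ Y, ∃ g : E n ≃ᵢ E n, g '' Y = Y ∧ g x = y

def Soluble {n : ℕ} (Y : Set (E n)) : Prop :=
  ∃ G : Subgroup (E n ≃ᵢ E n), Group.IsSolvable G ∧ (∀ g ∈ G, g '' Y = Y) ∧
    ∀ x ∈ Y, ∀ y ∈ Y, ∃ g ∈ G, g x = y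

def Subsoluble {d : ℕ} (X : Set (E d)) : Prop :=
  ∃ (n : ℕ) (Y : Set (E n)) (f : E d → E n), Y.Finite ∧ Soluble Y ∧ Isometry f ∧ f '' X ⊆ Y

theorem result (d : ℕ) (X : Set (E d)) (hX : X.Finite) (ht : Transitive X) : Subsoluble X := by
  obtain ⟨n, Y, f, h1, h2, h3, h4⟩ := H.BS.trans_sub X hX ht
  exact ⟨n, Y, f, h1, h4, h2, h3⟩

end Pool.Agent.Results.MP_528470_co.Yes
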